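import Pool.Agent.Helper2.BI.St

set_option autoImplicit false

namespace Pool.Agent.Helper76.BI
open Pool.Agent.Helper2.BI
open Finset Filter

theorem hset (q H : ℕ) (hq : q.Prime) (a : ZMod q) (ha : a ≠ 0) (hH : H < q) :
    ∃ Om ⊆ range q, Om.card = H ∧ ∀ n : ℕ, n % q ∈ Om → ∃ j ∈ Icc 1 H, (n : ZMod q) = a * j := by
  haveI := Fact.mk hq
  refine ⟨(Icc 1 H).image (fun j : ℕ => (a * (j : ZMod q)).val), ?_, ?_, ?_⟩
  · intro x hx
    rw [mem_image] at hx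
    obtain ⟨j, _, rfl⟩ := hx
    exact mem_range.2 (ZMod.val_lt _)
  · rw [card_image_of_injOn, Nat.card_Icc]
    · simp
    · intro j hj j' hj' h
      have h1 := ZMod.val_injective q h
      have h2 := mul_left_cancel₀ ha h1
      rw [ZMod.natCast_eq_natCast_iff'] at h2
      simp only [coe_Icc, Set.mem_Icc] at hj hj'
      rwa [Nat.mod_eq_of_lt (by omega), Nat.mod_eq_of_lt (by omega)] at h2
  · intro n hn
    rw [mem_image] at hn
    obtain ⟨j, hj, h⟩ := hn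
    refine ⟨j, hj, ?_⟩
    have h0 : (n : ZMod q) = ((n % q : ℕ) : ZMod q) := by simp
    rw [h0, ← h, ZMod.natCast_zmod_val]

/-- the binomial coefficient -/
theorem choose_lb (n k : ℕ) (x : ℝ) (hx : 2 * (k : ℝ) ≤ x) (hn : x ≤ n) :
    (x / 2) ^ k / k.factorial ≤ (n.choose k : ℝ) := by
  have h1 : ((n + 1 - k : ℕ) ^ k : ℝ) / k.factorial ≤ n.choose k := Nat.pow_le_choose k n
  refine le_trans ?_ h1
  have hk0 : (0 : ℝ) ≤ k := Nat.cast_nonneg k
  have hkn : k ≤ n := by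
    have : (k : ℝ) ≤ n := by linarith
    exact_mod_cast this
  have h2 : x / 2 ≤ ((n + 1 - k : ℕ) : ℝ) := by
    rw [Nat.cast_sub (by omega)]
    push_cast
    linarith
  have h3 : (x / 2) ^ k ≤ ((n + 1 - k : ℕ) : ℝ) ^ k := pow_le_pow_left₀ (by linarith) h2 k
  gcongr

/-- large `P` -/
theorem exP (k Y₀ : ℕ) : ∃ P₁ : ℕ, Y₀ ≤ P₁ ∧ 2 ≤ P₁ ∧ ∀ P : ℕ, P₁ ≤ P →
    2 * (k : ℝ) ≤ (P : ℝ) / Real.log P := by
  have h := Real.isLittleO_log_id_atTop.bound (c := 1 / (2 * (k : ℝ) + 1)) (by positivity)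
  have h2 := (tendsto_natCast_atTop_atTop (R := ℝ)).eventually h
  rw [eventually_atTop] at h2
  obtain ⟨P₂, hP₂⟩ := h2
  refine ⟨max (max Y₀ 2) P₂, le_trans (le_max_left _ _) (le_max_left _ _),
    le_trans (le_max_right _ _) (le_max_left _ _), fun P hP => ?_⟩
  have hP2 : 2 ≤ P := le_trans (le_trans (le_max_right _ _) (le_max_left _ _)) hP
  have h3 := hP₂ P (le_trans (le_max_right _ _) hP)
  have hP2' : (2 : ℝ) ≤ P := by exact_mod_cast hP2
  have hlog : 0 < Real.log P := Real.log_pos (by linarith)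
  simp only [id, Real.norm_eq_abs] at h3
  rw [abs_of_pos hlog, abs_of_nonneg (by linarith : (0 : ℝ) ≤ P)] at h3
  rw [le_div_iff₀ hlog]
  have hk : (0 : ℝ) ≤ k := Nat.cast_nonneg k
  have h4 : (2 * (k : ℝ) + 1) * Real.log P ≤ P := by
    calc (2 * (k : ℝ) + 1) * Real.log P ≤ (2 * (k : ℝ) + 1) * (1 / (2 * (k : ℝ) + 1) * P) :=
          mul_le_mul_of_nonneg_left h3 (by linarith)
      _ = P := by field_simp
  nlinarith

/-- one set of cofactors -/
theorem perp (C : ℝ) (hC : 0 < C)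
    (hLS : ∀ (N M k H Q : ℕ) (B S : Finset ℕ), B ⊆ Ioc M (M + N) →
      1 ≤ Q → (∀ q ∈ S, q.Prime ∧ q ≤ Q ∧ H < q) →
      (∀ q ∈ S, ∃ Om ⊆ range q, Om.card = H ∧ ∀ n ∈ B, n % q ∉ Om) →
      (S.card.choose k : ℝ) * ((H : ℝ) / Q) ^ k * B.card ≤ C * (N + ((Q : ℝ) ^ k) ^ 2))
    (k X P H : ℕ) (hX : 2 ≤ X) (hH : 1 ≤ H) (hHP : H ≤ P) (hP2 : 2 ≤ P) (hPX : P ^ (2 * k + 2) ≤ 2 * X)
    (hlog : 2 * (k : ℝ) ≤ (P : ℝ) / Real.log P)
    (hcp : (P : ℝ) / Real.log P ≤ ((Ioc (2 * P) (8 * P)).filter Nat.Prime).card)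
    (B : Finset ℕ) (hB : B ⊆ Ioc 0 (2 * X / P ^ 2))
    (hres : ∀ q : ℕ, q.Prime → 2 * P < q → ∃ a : ZMod q, a ≠ 0 ∧ ∀ r ∈ B, ∀ j ∈ Icc 1 H,
      (r : ZMod q) ≠ a * j) :
    (B.card : ℝ) ≤ (k.factorial * C * (2 + 2 * 64 ^ k) * 16 ^ k) * (X / P ^ 2 * (Real.log X / H) ^ k) := by
  have hPr : (2 : ℝ) ≤ P := by exact_mod_cast hP2
  have hP0 : (0 : ℝ) < P := by linarith
  have hHr : (1 : ℝ) ≤ H := by exact_mod_cast hH
  have hH0 : (0 : ℝ) < H := by linarith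
  have hXr : (2 : ℝ) ≤ X := by exact_mod_cast hX
  have hlP : 0 < Real.log P := Real.log_pos (by linarith)
  have h1 := hLS (2 * X / P ^ 2) 0 k H (8 * P) B ((Ioc (2 * P) (8 * P)).filter Nat.Prime)
    (by simpa using hB) (by omega)
    (by
      intro q hq
      rw [mem_filter, mem_Ioc] at hq
      exact ⟨hq.2, hq.1.2, by omega⟩)
    (by
      intro q hq
      rw [mem_filter, mem_Ioc] at hq
      obtain ⟨a, ha, hr⟩ := hres q hq.2 hq.1.1
      obtain ⟨Om, h1, h2, h3⟩ := hset q H hq.2 a ha (by omega)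
      refine ⟨Om, h1, h2, fun n hn hc => ?_⟩
      obtain ⟨j, hj, he⟩ := h3 n hc
      exact hr n hn j hj he)
  set n := ((Ioc (2 * P) (8 * P)).filter Nat.Prime).card with hn
  have hch := choose_lb n k _ hlog hcp
  -- right side
  have hN : ((2 * X / P ^ 2 : ℕ) : ℝ) ≤ 2 * (X / P ^ 2) := by
    have := @Nat.cast_div_le ℝ _ _ _ (2 * X) (P ^ 2)
    push_cast at this
    calc ((2 * X / P ^ 2 : ℕ) : ℝ) ≤ 2 * X / P ^ 2 := this
      _ = 2 * (X / P ^ 2) := by ring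
  have hpow : (((8 * P : ℕ) : ℝ) ^ k) ^ 2 ≤ 2 * 64 ^ k * (X / P ^ 2) := by
    have hc : (P : ℝ) ^ (2 * k + 2) ≤ 2 * X := by exact_mod_cast hPX
    have e1 : (((8 * P : ℕ) : ℝ) ^ k) ^ 2 = 64 ^ k * P ^ (2 * k) := by
      push_cast
      rw [← pow_mul, mul_pow, mul_comm k 2, pow_mul, pow_mul]
      norm_num
    rw [e1]
    have e2 : (P : ℝ) ^ (2 * k) ≤ 2 * (X / P ^ 2) := by
      rw [← mul_div_assoc, le_div_iff₀ (by positivity), ← pow_add]
      exact hc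
    calc (64 : ℝ) ^ k * P ^ (2 * k) ≤ 64 ^ k * (2 * (X / P ^ 2)) := by gcongr
      _ = 2 * 64 ^ k * (X / P ^ 2) := by ring
  have hR : C * (((2 * X / P ^ 2 : ℕ) : ℝ) + (((8 * P : ℕ) : ℝ) ^ k) ^ 2) ≤
      C * (2 + 2 * 64 ^ k) * (X / P ^ 2) := by
    calc C * (((2 * X / P ^ 2 : ℕ) : ℝ) + (((8 * P : ℕ) : ℝ) ^ k) ^ 2) ≤
        C * (2 * (X / P ^ 2) + 2 * 64 ^ k * (X / P ^ 2)) := by gcongr
      _ = C * (2 + 2 * 64 ^ k) * (X / P ^ 2) := by ring
  have hL : ((P : ℝ) / Real.log P / 2) ^ k / k.factorial * ((H : ℝ) / ((8 * P : ℕ) : ℝ)) ^ k * B.card ≤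
      C * (2 + 2 * 64 ^ k) * (X / P ^ 2) := by
    refine le_trans ?_ (le_trans h1 hR)
    gcongr
  have hfac : (0 : ℝ) < k.factorial := by exact_mod_cast k.factorial_pos
  have hA : ((P : ℝ) / Real.log P / 2) ^ k / k.factorial * ((H : ℝ) / ((8 * P : ℕ) : ℝ)) ^ k =
      1 / (k.factorial * (16 * (Real.log P / H)) ^ k) := by
    have : ((P : ℝ) / Real.log P / 2) * ((H : ℝ) / ((8 * P : ℕ) : ℝ)) = 1 / (16 * (Real.log P / H)) := by
      push_cast
      field_simp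
      norm_num
    rw [div_mul_eq_mul_div, ← mul_pow, this, div_pow, one_pow, div_div, mul_comm]
  rw [hA] at hL
  have hXP : Real.log P ≤ Real.log X := by
    apply Real.log_le_log hP0
    have h4 : P ^ 2 ≤ 2 * X := le_trans (Nat.pow_le_pow_right (by omega) (by omega)) hPX
    have h5 : P ≤ X := by
      by_contra hc
      push Not at hc
      nlinarith
    exact_mod_cast h5
  have hpos : (0 : ℝ) < k.factorial * (16 * (Real.log P / H)) ^ k := by positivity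
  have h6 : (B.card : ℝ) ≤ C * (2 + 2 * 64 ^ k) * (X / P ^ 2) * (k.factorial * (16 * (Real.log P / H)) ^ k) := by
    rw [one_div, inv_mul_eq_div, div_le_iff₀ hpos] at hL
    exact hL
  refine le_trans h6 ?_
  have h7 : (16 * (Real.log P / H)) ^ k ≤ 16 ^ k * (Real.log X / H) ^ k := by
    rw [mul_pow]
    gcongr
  calc C * (2 + 2 * 64 ^ k) * (X / P ^ 2) * (k.factorial * (16 * (Real.log P / H)) ^ k) ≤
      C * (2 + 2 * 64 ^ k) * (X / P ^ 2) * (k.factorial * (16 ^ k * (Real.log X / H) ^ k)) := by gcongr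
    _ = _ := by ring

theorem gen (h1 : LSc) (h2 : CP) (k : ℕ) : ∃ C : ℝ, 0 < C ∧ ∀ X P H : ℕ, 2 ≤ X → 1 ≤ H → H ≤ P →
    P ^ (2 * k + 2) ≤ 2 * X → ∀ F : Finset ℕ, F ⊆ Icc 1 (2 * X) →
    (∀ m ∈ F, ∃ p : ℕ, p.Prime ∧ P < p ∧ p ≤ 2 * P ∧ p ^ 2 ∣ m) →
    (∀ q : ℕ, q.Prime → 2 * P < q → ∃ e : ZMod q, e ≠ 0 ∧ ∀ m ∈ F, ∀ j ∈ Icc 1 H,
      (m : ZMod q) ≠ e * j) →
    (F.card : ℝ) ≤ C * (X / P * (Real.log X / H) ^ k) := by
  obtain ⟨C, hC, hLS⟩ := h1
  obtain ⟨Y₀, hY₀, hCP⟩ := h2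
  obtain ⟨P₁, hP₁Y, hP₁2, hP₁⟩ := exP k Y₀
  have hfac : (0 : ℝ) < k.factorial := by exact_mod_cast k.factorial_pos
  have hl2 : 0 < Real.log 2 := Real.log_pos (by norm_num)
  have hP₁r : (2 : ℝ) ≤ P₁ := by exact_mod_cast hP₁2
  set K₁ : ℝ := k.factorial * C * (2 + 2 * 64 ^ k) * 16 ^ k with hK₁
  set K₂ : ℝ := 2 * P₁ * (P₁ / Real.log 2) ^ k with hK₂
  have hK₁0 : 0 < K₁ := by positivity
  have hK₂0 : 0 < K₂ := by positivity
  refine ⟨K₁ + K₂, by positivity, ?_⟩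
  intro X P H hX hH hHP hPX F hF hFp hFq
  have hP1 : 1 ≤ P := by omega
  have hPr : (1 : ℝ) ≤ P := by exact_mod_cast hP1
  have hHr : (1 : ℝ) ≤ H := by exact_mod_cast hH
  have hXr : (2 : ℝ) ≤ X := by exact_mod_cast hX
  have hlX : 0 < Real.log X := Real.log_pos (by linarith)
  have hT0 : 0 ≤ (X : ℝ) / P * (Real.log X / H) ^ k := by positivity
  by_cases hPP : P₁ ≤ P
  · -- large P
    have hP2 : 2 ≤ P := le_trans hP₁2 hPP
    -- the cofactor sets
    let Bp : ℕ → Finset ℕ := fun p => (Ioc 0 (2 * X / P ^ 2)).filter (fun r => p ^ 2 * r ∈ F)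
    have hBp : ∀ p ∈ (Ioc P (2 * P)).filter Nat.Prime, ((Bp p).card : ℝ) ≤
        K₁ * (X / P ^ 2 * (Real.log X / H) ^ k) := by
      intro p hp
      rw [mem_filter, mem_Ioc] at hp
      refine perp C hC hLS k X P H hX hH hHP hP2 hPX (hP₁ P hPP) (hCP P (le_trans hP₁Y hPP)) (Bp p)
        (filter_subset _ _) ?_
      intro q hq hPq
      have := Fact.mk hq
      obtain ⟨e, he, hm⟩ := hFq q hq hPq
      have hp0 : ((p : ℕ) : ZMod q) ≠ 0 := by
        intro h0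
        rw [ZMod.natCast_eq_zero_iff] at h0
        have := (Nat.prime_dvd_prime_iff_eq hq hp.2).1 h0
        omega
      refine ⟨e * ((p : ZMod q) ^ 2)⁻¹, mul_ne_zero he (inv_ne_zero (pow_ne_zero 2 hp0)), ?_⟩
      intro r hr j hj h
      have hr' := (mem_filter.1 hr).2
      apply hm _ hr' j hj
      push_cast
      rw [h]
      field_simp
    have hcov : F ⊆ ((Ioc P (2 * P)).filter Nat.Prime).biUnion
        (fun p => (Bp p).image (fun r => p ^ 2 * r)) := by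
      intro m hm
      obtain ⟨p, hp, h1, h2, r, hr⟩ := hFp m hm
      rw [mem_biUnion]
      refine ⟨p, mem_filter.2 ⟨mem_Ioc.2 ⟨h1, h2⟩, hp⟩, ?_⟩
      rw [mem_image]
      have hm' := mem_Icc.1 (hF hm)
      refine ⟨r, mem_filter.2 ⟨mem_Ioc.2 ⟨?_, ?_⟩, hr ▸ hm⟩, hr.symm⟩
      · rcases Nat.eq_zero_or_pos r with h0 | h0
        · rw [h0, mul_zero] at hr
          omega
        · exact h0
      · rw [Nat.le_div_iff_mul_le (by positivity)]
        calc r * P ^ 2 ≤ r * p ^ 2 := Nat.mul_le_mul_left _ (Nat.pow_le_pow_left h1.le 2)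
          _ = m := by rw [hr, mul_comm]
          _ ≤ 2 * X := hm'.2
    have hcard : (F.card : ℝ) ≤ ∑ p ∈ (Ioc P (2 * P)).filter Nat.Prime, ((Bp p).card : ℝ) := by
      have h3 : F.card ≤ ∑ p ∈ (Ioc P (2 * P)).filter Nat.Prime, (Bp p).card :=
        le_trans (card_le_card hcov) (le_trans card_biUnion_le (sum_le_sum fun p _ => card_image_le))
      exact_mod_cast h3
    have hcardP : (((Ioc P (2 * P)).filter Nat.Prime).card : ℝ) ≤ P := by
      have h3 : ((Ioc P (2 * P)).filter Nat.Prime).card ≤ P := by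
        refine le_trans (card_filter_le _ _) ?_
        rw [Nat.card_Ioc]
        omega
      exact_mod_cast h3
    calc (F.card : ℝ) ≤ ∑ p ∈ (Ioc P (2 * P)).filter Nat.Prime, ((Bp p).card : ℝ) := hcard
      _ ≤ ∑ p ∈ (Ioc P (2 * P)).filter Nat.Prime, K₁ * (X / P ^ 2 * (Real.log X / H) ^ k) :=
          sum_le_sum hBp
      _ = (((Ioc P (2 * P)).filter Nat.Prime).card : ℝ) * (K₁ * (X / P ^ 2 * (Real.log X / H) ^ k)) := by
          rw [sum_const, nsmul_eq_mul]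
      _ ≤ P * (K₁ * (X / P ^ 2 * (Real.log X / H) ^ k)) := by gcongr
      _ = K₁ * (X / P * (Real.log X / H) ^ k) := by field_simp
      _ ≤ (K₁ + K₂) * (X / P * (Real.log X / H) ^ k) :=
          mul_le_mul_of_nonneg_right (by linarith) hT0
  · -- small P
    push Not at hPP
    have hPP' : (P : ℝ) ≤ P₁ := by exact_mod_cast hPP.le
    have hHP' : (H : ℝ) ≤ P₁ := by
      have : (H : ℝ) ≤ P := by exact_mod_cast hHP
      linarith
    have hc : (F.card : ℝ) ≤ 2 * X := by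
      have h3 := card_le_card hF
      rw [Nat.card_Icc] at h3
      have h4 : F.card ≤ 2 * X := by omega
      exact_mod_cast h4
    have hq1 : (X : ℝ) / P₁ ≤ X / P := by gcongr
    have hq2 : Real.log 2 / P₁ ≤ Real.log X / H := by
      have : Real.log 2 ≤ Real.log X := Real.log_le_log (by norm_num) hXr
      gcongr
    have hq3 : (Real.log 2 / P₁) ^ k ≤ (Real.log X / H) ^ k := by gcongr
    have he : K₂ * (X / P₁ * (Real.log 2 / P₁) ^ k) = 2 * X := by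
      rw [hK₂]
      have h5 : ((P₁ : ℝ) / Real.log 2) ^ k * (Real.log 2 / P₁) ^ k = 1 := by
        rw [← mul_pow]
        have : (P₁ : ℝ) / Real.log 2 * (Real.log 2 / P₁) = 1 := by field_simp
        rw [this, one_pow]
      calc 2 * (P₁ : ℝ) * (P₁ / Real.log 2) ^ k * (X / P₁ * (Real.log 2 / P₁) ^ k) =
          (2 * (P₁ : ℝ) * (X / P₁)) * (((P₁ : ℝ) / Real.log 2) ^ k * (Real.log 2 / P₁) ^ k) := by ring
        _ = 2 * X := by
          rw [h5, mul_one]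
          field_simp
    calc (F.card : ℝ) ≤ 2 * X := hc
      _ = K₂ * (X / P₁ * (Real.log 2 / P₁) ^ k) := he.symm
      _ ≤ K₂ * (X / P * (Real.log X / H) ^ k) := by gcongr
      _ ≤ (K₁ + K₂) * (X / P * (Real.log X / H) ^ k) :=
          mul_le_mul_of_nonneg_right (by linarith) hT0

open Classical in
theorem hKM : KM := by
  intro h1 h2 k
  obtain ⟨C, hC, h⟩ := gen h1 h2 k
  refine ⟨C, hC, fun X P H hX hH hHP hPX => ⟨?_, ?_⟩⟩
  · refine h X P H hX hH hHP hPX (Mp X P H) (filter_subset _ _) ?_ ?_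
    · intro m hm
      exact (mem_filter.1 hm).2.1
    · intro q hq hPq
      haveI := Fact.mk hq
      refine ⟨-1, neg_ne_zero.2 one_ne_zero, ?_⟩
      intro m hm j hj he
      have h3 := (mem_filter.1 hm).2.2 j hj q hq hPq
      apply h3
      rw [← ZMod.natCast_eq_zero_iff]
      push_cast
      rw [he]
      ring
  · refine h X P H hX hH hHP hPX (Mm X P H) (filter_subset _ _) ?_ ?_
    · intro m hm
      exact (mem_filter.1 hm).2.1
    · intro q hq hPq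
      haveI := Fact.mk hq
      refine ⟨1, one_ne_zero, ?_⟩
      intro m hm j hj he
      have h3 := (mem_filter.1 hm).2.2 j hj q hq hPq
      apply h3
      rcases le_total j m with hjm | hjm
      · rw [← ZMod.natCast_eq_zero_iff, Nat.cast_sub hjm, he]
        ring
      · rw [Nat.sub_eq_zero_of_le hjm]
        exact dvd_zero q

end Pool.Agent.Helper76.BI
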